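import Mathlib
import Pool.Agent.H576.CR.Stm

set_option autoImplicit false

/-!
# Project CR, piece NUM (by helper996)
-/

namespace Pool.Agent.H996

open Finset

/-- one step: the terms `C(n, d) t ^ d` double -/
theorem crnum_step {n M d : ℕ} (hM : 0 < M) (h : 8 * M * (d + 1) ≤ n) :
    2 * ((n.choose d : ℝ) * (1 / (M : ℝ)) ^ d) ≤
      (n.choose (d + 1) : ℝ) * (1 / (M : ℝ)) ^ (d + 1) := by
  have hM0 : (0 : ℝ) < M := by exact_mod_cast hM
  have h1 : (n.choose (d + 1) : ℝ) * (d + 1) = n.choose d * (n - d : ℕ) := by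
    exact_mod_cast Nat.choose_succ_right_eq n d
  have h2 : 2 * M * (d + 1) ≤ n - d := by
    have h3 : 2 * M * (d + 1) + d ≤ 8 * M * (d + 1) := by nlinarith
    omega
  have h3 : (2 : ℝ) * M * (d + 1) ≤ (n - d : ℕ) := by exact_mod_cast h2
  have h4 : (0 : ℝ) ≤ n.choose d := Nat.cast_nonneg _
  have h5 : (0 : ℝ) < d + 1 := by positivity
  have h6 : (2 : ℝ) * M * n.choose d ≤ n.choose (d + 1) := by
    have h7 : (2 : ℝ) * M * n.choose d * (d + 1) ≤ n.choose (d + 1) * (d + 1) := by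
      rw [h1]
      nlinarith [mul_le_mul_of_nonneg_left h3 h4]
    exact le_of_mul_le_mul_right h7 h5
  have h8 : (0 : ℝ) < (1 / (M : ℝ)) ^ d := by positivity
  rw [pow_succ]
  have h9 : (n.choose (d + 1) : ℝ) * ((1 / (M : ℝ)) ^ d * (1 / (M : ℝ))) =
      (n.choose (d + 1) / M) * (1 / (M : ℝ)) ^ d := by ring
  rw [h9, ← mul_assoc]
  apply mul_le_mul_of_nonneg_right _ h8.le
  rw [le_div_iff₀ hM0]
  linarith

theorem crnum_sum {n M : ℕ} (hM : 0 < M) (D : ℕ) (h : 8 * M * D ≤ n) :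
    ∑ d ∈ range D, (n.choose d : ℝ) * (1 / (M : ℝ)) ^ d ≤ (n.choose D : ℝ) * (1 / (M : ℝ)) ^ D := by
  induction D with
  | zero => simp
  | succ D ih =>
    rw [Finset.sum_range_succ]
    have h1 := ih (le_trans (Nat.mul_le_mul_left _ (Nat.le_succ D)) h)
    have h2 := crnum_step hM h
    linarith

theorem crnum_pow {n M : ℕ} (hM : 0 < M) (D k : ℕ) (h : 8 * M * (D + k) ≤ n) :
    2 ^ k * ((n.choose D : ℝ) * (1 / (M : ℝ)) ^ D) ≤
      (n.choose (D + k) : ℝ) * (1 / (M : ℝ)) ^ (D + k) := by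
  induction k with
  | zero => simp
  | succ k ih =>
    have h1 := ih (le_trans (Nat.mul_le_mul_left _ (by omega)) h)
    have h2 := crnum_step (d := D + k) hM h
    rw [pow_succ]
    show _ ≤ (n.choose (D + k + 1) : ℝ) * (1 / (M : ℝ)) ^ (D + k + 1)
    linarith

theorem cr_num : Pool.Agent.H576.CR.S_NUM := by
  intro C
  -- `M = 64 (C + 1)`
  set M : ℕ := 64 * (C + 1) with hMdef
  have hM : 0 < M := by omega
  have hM0 : (0 : ℝ) < M := by exact_mod_cast hM
  have hM1 : (64 : ℝ) ≤ M := by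
    have : 64 ≤ M := by omega
    exact_mod_cast this
  refine ⟨1 / (32 * M), 32 * M, by positivity, fun n hn N hN => ?_⟩
  set D : ℕ := n / (16 * M) with hD
  set L : ℕ := n / (8 * M) with hL
  have hD1 : 16 * M * D ≤ n := Nat.mul_div_le n (16 * M)
  have hD2 : n < 16 * M * (D + 1) := Nat.lt_mul_div_succ n (by omega)
  have hL1 : 8 * M * L ≤ n := Nat.mul_div_le n (8 * M)
  have hDge : 2 ≤ D := by
    rw [hD, Nat.le_div_iff_mul_le (by omega)]
    calc 2 * (16 * M) = 32 * M := by ring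
      _ ≤ n := hn
  have hLD : 2 * D ≤ L := by
    rw [hL, Nat.le_div_iff_mul_le (by omega)]
    calc 2 * D * (8 * M) = 16 * M * D := by ring
      _ ≤ n := hD1
  have hDn : D ≤ n := Nat.div_le_self _ _
  have hLn : L ≤ n := Nat.div_le_self _ _
  refine ⟨L, D, 1 / M, by positivity, ?_, by omega, hLn, ?_, ?_⟩
  · rw [div_lt_one hM0]; linarith
  · -- `γ n ≤ D`
    have h1 : (n : ℝ) < 16 * M * (D + 1) := by exact_mod_cast hD2
    have h2 : (2 : ℝ) ≤ D := by exact_mod_cast hDge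
    rw [div_mul_eq_mul_div, one_mul, div_le_iff₀ (by positivity)]
    nlinarith
  · obtain ⟨k, hk⟩ : ∃ k, L = D + k := ⟨L - D, by omega⟩
    have hkD : D ≤ k := by omega
    have hs := crnum_sum (n := n) hM D (by nlinarith)
    have hp := crnum_pow (n := n) hM D k (by rw [← hk]; exact hL1)
    rw [← hk] at hp
    set b : ℝ := (n.choose D : ℝ) * (1 / (M : ℝ)) ^ D with hb
    have hbpos : 0 < b := by
      have : 0 < n.choose D := Nat.choose_pos hDn
      have h1 : (0 : ℝ) < n.choose D := by exact_mod_cast this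
      positivity
    have hx1 : (1 / (M : ℝ)) ^ 2 ≤ 1 := by
      rw [div_pow, one_pow]
      rw [div_le_one (by positivity)]
      nlinarith
    have hbase0 : 0 ≤ 1 - (1 / (M : ℝ)) ^ 2 := by linarith
    have hbase1 : 1 - (1 / (M : ℝ)) ^ 2 ≤ 1 := by
      have : 0 ≤ (1 / (M : ℝ)) ^ 2 := by positivity
      linarith
    -- Bernoulli
    have hber : (3 / 4 : ℝ) ≤ (1 - (1 / (M : ℝ)) ^ 2) ^ (16 * M * (C + 1)) := by
      have h1 := one_add_mul_le_pow (a := -(1 / (M : ℝ)) ^ 2) (by linarith) (16 * M * (C + 1))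
      have h2 : (1 : ℝ) + ((16 * M * (C + 1) : ℕ) : ℝ) * (-(1 / (M : ℝ)) ^ 2) = 3 / 4 := by
        have h3 : (M : ℝ) = 64 * (C + 1) := by rw [hMdef]; push_cast; ring
        have h4 : ((C : ℝ) + 1) ≠ 0 := by positivity
        push_cast
        rw [h3]
        field_simp
        ring
      rw [h2] at h1
      have h5 : 1 - (1 / (M : ℝ)) ^ 2 = 1 + -(1 / (M : ℝ)) ^ 2 := by ring
      rw [h5]
      exact h1
    have hN2 : N ≤ 16 * M * (C + 1) * (D + 1) := by
      have h1 : C * n ≤ (C + 1) * (16 * M * (D + 1)) := Nat.mul_le_mul (by omega) hD2.le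
      calc N ≤ C * n := hN
        _ ≤ (C + 1) * (16 * M * (D + 1)) := h1
        _ = 16 * M * (C + 1) * (D + 1) := by ring
    have hpw : (3 / 4 : ℝ) ^ (D + 1) ≤ (1 - (1 / (M : ℝ)) ^ 2) ^ N := by
      calc (3 / 4 : ℝ) ^ (D + 1) ≤ ((1 - (1 / (M : ℝ)) ^ 2) ^ (16 * M * (C + 1))) ^ (D + 1) :=
            pow_le_pow_left₀ (by norm_num) hber _
        _ = (1 - (1 / (M : ℝ)) ^ 2) ^ (16 * M * (C + 1) * (D + 1)) := (pow_mul _ _ _).symm
        _ ≤ (1 - (1 / (M : ℝ)) ^ 2) ^ N := pow_le_pow_of_le_one hbase0 hbase1 hN2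
    have h2k : (2 : ℝ) ^ D ≤ 2 ^ k := pow_le_pow_right₀ (by norm_num) hkD
    have hfin : 1 < (3 / 4 : ℝ) ^ (D + 1) * 2 ^ D := by
      have e : (3 / 4 : ℝ) ^ (D + 1) * 2 ^ D = 3 / 4 * (3 / 2) ^ D := by
        rw [pow_succ, mul_right_comm, ← mul_pow]
        norm_num
        ring
      rw [e]
      have h3 : (3 / 2 : ℝ) ^ 1 ≤ (3 / 2) ^ D := pow_le_pow_right₀ (by norm_num) (by omega)
      linarith
    calc ∑ d ∈ range D, (n.choose d : ℝ) * (1 / (M : ℝ)) ^ d ≤ b := hs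
      _ < (3 / 4 : ℝ) ^ (D + 1) * 2 ^ D * b := by nlinarith
      _ ≤ (3 / 4 : ℝ) ^ (D + 1) * (2 ^ k * b) := by
          rw [mul_assoc]
          apply mul_le_mul_of_nonneg_left _ (by positivity)
          exact mul_le_mul_of_nonneg_right h2k hbpos.le
      _ ≤ (1 - (1 / (M : ℝ)) ^ 2) ^ N * ((n.choose L : ℝ) * (1 / (M : ℝ)) ^ L) :=
          mul_le_mul hpw hp (by positivity) (pow_nonneg hbase0 _)

end Pool.Agent.H996
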