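import Pool.Agent.H691.MM.Grid

/-!
# Max-min area triangulations: V1, V2, V3 (soundness of the grid)
-/

set_option autoImplicit false

namespace Pool.Agent.H691.MM

open Pool.Agent.W982.TA Pool.Agent.H691.Geo Pool.Agent.NPC

/-- I1 -/
theorem v1_i1 : TaskI1 := by
  intro φ q
  unfold Wset Wlist
  simp only [List.mem_toFinset, List.mem_flatMap, List.mem_range, List.mem_map]
  constructor
  · rintro ⟨i, hi, j, hj, c, hc, rfl⟩
    refine ⟨i, hi, j, hj, c, hc, ?_⟩
    push_cast
    rfl
  · rintro ⟨i, hi, j, hj, c, hc, rfl⟩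
    refine ⟨i, hi, j, hj, c, hc, ?_⟩
    push_cast
    rfl

theorem v1_ty_lt (φ : List Cl) (i j : ℕ) : ty φ i j < 8 := by
  unfold ty
  split_ifs <;> omega

/-- the cells on the right side -/
theorem v1_right : ∀ t < 8, ∀ x, 18 ≤ x → x < 21 → ∀ y, (y = 20 ∨ y = 21) → (x, y) ∈ cells t := by
  intro t ht x h1 h2 y hy
  interval_cases t <;> interval_cases x <;> rcases hy with rfl | rfl <;> decide

/-- the cells on the bottom side -/
theorem v1_bot : ∀ t < 8, ∀ x, botx t = some x → ∀ y < 3, (x, y) ∈ cells t := by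
  intro t ht x hx y hy
  interval_cases t <;> simp only [botx] at hx <;> norm_num at hx <;>
    first
    | exact absurd hx (by simp)
    | (subst hx; interval_cases y <;> decide)

/-- the cells on the top side -/
theorem v1_top : ∀ t < 8, ∀ x, topx t = some x → ∀ y, 36 ≤ y → y < 39 → (x, y) ∈ cells t := by
  intro t ht x hx y hy hy'
  interval_cases t <;> simp only [topx] at hx <;> norm_num at hx <;>
    first
    | exact absurd hx (by simp)
    | (subst hx; interval_cases y <;> decide)

theorem v1_hasL (φ : List Cl) (i j : ℕ) : hasL (ty φ i j) = true ↔ 1 ≤ j := by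
  unfold ty
  rcases Nat.eq_zero_or_pos j with hj | hj
  · subst hj
    simp only [if_true]
    split_ifs <;> simp [hasL]
  · have h : ¬ j = 0 := by omega
    simp only [if_neg h]
    split_ifs <;> simp [hasL] <;> omega

theorem v1_nR (φ : List Cl) : nR φ = 6 * φ.length + 2 := rfl

theorem v1_up (φ : List Cl) (i j x : ℕ) (hi : i < nR φ) (h : topx (ty φ i j) = some x) :
    i + 1 < nR φ ∧ botx (ty φ (i + 1) j) = some x := by
  have hR := v1_nR φ
  unfold ty at h ⊢
  rcases Nat.eq_zero_or_pos j with hj | hj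
  · subst hj
    simp only [if_true] at h ⊢
    by_cases h0 : i = 0
    · exfalso
      rw [if_pos h0] at h
      revert h
      simp [topx]
    rw [if_neg h0] at h
    by_cases h1 : i = nR φ - 1
    · exfalso
      rw [if_pos h1] at h
      revert h
      simp [topx]
    rw [if_neg h1] at h
    by_cases h2 : i % 2 = 1
    · rw [if_pos h2] at h
      have h3 : ¬ (i + 1 = 0) := by omega
      have h4 : ¬ (i + 1 = nR φ - 1) := by omega
      have h5 : ¬ ((i + 1) % 2 = 1) := by omega
      rw [if_neg h3, if_neg h4, if_neg h5]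
      refine ⟨by omega, ?_⟩
      simp only [topx] at h
      simp only [botx]
      norm_num at h ⊢
      exact h
    · exfalso
      rw [if_neg h2] at h
      revert h
      simp [topx]
  · have hj0 : ¬ j = 0 := by omega
    simp only [if_neg hj0] at h ⊢
    have h3 : ¬ (i + 1 = 0) := by omega
    rw [if_neg h3]
    have hx : x = 10 ∧ i ≠ nR φ - 1 := by
      split_ifs at h with g1 g2 g3
      · simp only [topx] at h
        norm_num at h
        exact ⟨h.symm, by omega⟩
      · simp only [topx] at h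
        norm_num at h
        exact absurd h (by simp)
      · simp only [topx] at h
        norm_num at h
        exact ⟨h.symm, g2⟩
      · simp only [topx] at h
        norm_num at h
        exact ⟨h.symm, g2⟩
    obtain ⟨rfl, hx⟩ := hx
    refine ⟨by omega, ?_⟩
    split_ifs <;> simp [botx]

theorem v1_down (φ : List Cl) (i j x : ℕ) (hi : i < nR φ) (h : botx (ty φ i j) = some x) :
    1 ≤ i ∧ topx (ty φ (i - 1) j) = some x := by
  have hR := v1_nR φ
  unfold ty at h ⊢
  rcases Nat.eq_zero_or_pos j with hj | hj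
  · subst hj
    simp only [if_true] at h ⊢
    by_cases h0 : i = 0
    · exfalso
      rw [if_pos h0] at h
      revert h
      simp [botx]
    rw [if_neg h0] at h
    by_cases h1 : i = nR φ - 1
    · exfalso
      rw [if_pos h1] at h
      revert h
      simp [botx]
    rw [if_neg h1] at h
    by_cases h2 : i % 2 = 1
    · exfalso
      rw [if_pos h2] at h
      revert h
      simp [botx]
    · rw [if_neg h2] at h
      have h3 : ¬ (i - 1 = 0) := by omega
      have h4 : ¬ (i - 1 = nR φ - 1) := by omega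
      have h5 : (i - 1) % 2 = 1 := by omega
      rw [if_neg h3, if_neg h4, if_pos h5]
      refine ⟨by omega, ?_⟩
      simp only [botx] at h
      simp only [topx]
      norm_num at h ⊢
      exact h
  · have hj0 : ¬ j = 0 := by omega
    simp only [if_neg hj0] at h ⊢
    have hx : x = 10 ∧ i ≠ 0 := by
      split_ifs at h with g1 g2 g3
      · simp only [botx] at h
        norm_num at h
        exact absurd h (by simp)
      · simp only [botx] at h
        norm_num at h
        exact ⟨h.symm, g1⟩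
      · simp only [botx] at h
        norm_num at h
        exact ⟨h.symm, g1⟩
      · simp only [botx] at h
        norm_num at h
        exact ⟨h.symm, g1⟩
    obtain ⟨rfl, hx⟩ := hx
    refine ⟨by omega, ?_⟩
    have h4 : ¬ (i - 1 = nR φ - 1) := by omega
    rw [if_neg h4]
    split_ifs <;> simp [topx]

theorem v1 : TaskV1 := by
  intro φ i hi j hj p hp
  rw [v1_i1]
  unfold cellIn at hp
  simp only [Bool.or_eq_true, Bool.and_eq_true, decide_eq_true_eq] at hp
  rcases hp with ((⟨⟨h1, h2⟩, h3⟩ | ⟨⟨⟨h1, h2⟩, h3⟩, h4⟩) | ⟨⟨⟨h1, h2⟩, h3⟩, h4⟩) | ⟨⟨⟨h1, h2⟩, h3⟩, h4⟩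
  · refine ⟨i, hi, j, hj, _, List.contains_iff_mem.1 h3, ?_⟩
    simp only [Int.toNat_of_nonneg h1, Int.toNat_of_nonneg h2]
  · have h5 := (v1_hasL φ i j).1 h1
    refine ⟨i, hi, j - 1, by omega, ((p.1 + 21).toNat, p.2.toNat),
      v1_right _ (v1_ty_lt φ i (j - 1)) _ (by omega) (by omega) _ (by omega), ?_⟩
    ext
    · simp only
      have h6 : (((p.1 + 21).toNat : ℕ) : ℤ) = p.1 + 21 := Int.toNat_of_nonneg (by omega)
      rw [h6, Nat.cast_sub h5]
      push_cast
      ring
    · simp only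
      have h6 : ((p.2.toNat : ℕ) : ℤ) = p.2 := Int.toNat_of_nonneg (by omega)
      rw [h6]
  · obtain ⟨h5, h6⟩ := v1_up φ i j _ hi h1
    refine ⟨i + 1, h5, j, hj, (p.1.toNat, (p.2 - 39).toNat),
      v1_bot _ (v1_ty_lt φ (i + 1) j) _ h6 _ (by omega), ?_⟩
    ext
    · simp only [Int.toNat_of_nonneg h2]
    · simp only
      have h6 : (((p.2 - 39).toNat : ℕ) : ℤ) = p.2 - 39 := Int.toNat_of_nonneg (by omega)
      rw [h6]
      push_cast
      ring
  · obtain ⟨h5, h6⟩ := v1_down φ i j _ hi h1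
    refine ⟨i - 1, by omega, j, hj, (p.1.toNat, (p.2 + 39).toNat),
      v1_top _ (v1_ty_lt φ (i - 1) j) _ h6 _ (by omega) (by omega), ?_⟩
    ext
    · simp only [Int.toNat_of_nonneg h2]
    · simp only
      have h7 : (((p.2 + 39).toNat : ℕ) : ℤ) = p.2 + 39 := Int.toNat_of_nonneg (by omega)
      rw [h7, Nat.cast_sub h5]
      push_cast
      ring

theorem v2 (c4 : TaskC4) : TaskV2 := by
  intro φ f hS i hi j hj c hc hasm
  unfold claimIn at hc
  simp only [Bool.and_eq_true, List.all_eq_true, Bool.or_eq_true, Bool.not_eq_true'] at hc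
  obtain ⟨⟨h1, h2⟩, h3⟩ := hc
  refine c4 _ _ _ f hS c h1 (21 * (j : ℤ), 39 * (i : ℤ)) ?_ ?_ ?_
  · intro hb
    have h4 : hasL (ty φ i j) = false := by
      rcases h3 with h3 | h3
      · rw [hb] at h3
        exact absurd h3 (by decide)
      · exact h3
    have h5 : ¬ 1 ≤ j := by
      rw [← v1_hasL φ i j, h4]
      decide
    have h6 : j = 0 := by omega
    subst h6
    rfl
  · intro e he
    exact v1 φ i hi j hj e.1 (h2 e he)
  · intro a ha
    exact hasm a ha

/-- the horizontal signals -/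
def v3_h (f : Pt → Bool → Pt) (i j y : ℕ) : Bool :=
  if y = 41 ∧ i ≠ 0 then false else sgU f (21 * (j : ℤ) + 20, 39 * (i : ℤ) + 20)

/-- the vertical signals -/
def v3_v (f : Pt → Bool → Pt) (i j x : ℕ) : Bool :=
  if x = 4 then false else if x = 25 then sgU f (9, 39 * (i : ℤ) + 40)
  else sgU f (21 * (j : ℤ) + 10, 39 * (i : ℤ) + 40)

theorem v3_h41 (f : Pt → Bool → Pt) (i j : ℕ) (hi : i ≠ 0) : v3_h f i j 41 = false := by
  unfold v3_h
  rw [if_pos ⟨rfl, hi⟩]

theorem v3_h0 (f : Pt → Bool → Pt) (j : ℕ) : v3_h f 0 j 41 = sgU f (21 * (j : ℤ) + 20, 39 * ((0 : ℕ) : ℤ) + 20) := by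
  unfold v3_h
  rw [if_neg (by simp)]

theorem v3_hy (f : Pt → Bool → Pt) (i j y : ℕ) (hy : y ≠ 41) :
    v3_h f i j y = sgU f (21 * (j : ℤ) + 20, 39 * (i : ℤ) + 20) := by
  unfold v3_h
  rw [if_neg (by simp [hy])]

theorem v3_v25 (f : Pt → Bool → Pt) (i j : ℕ) : v3_v f i j 25 = sgU f (9, 39 * (i : ℤ) + 40) := by
  unfold v3_v
  rw [if_neg (by decide), if_pos rfl]

theorem v3_v15 (f : Pt → Bool → Pt) (i j : ℕ) :
    v3_v f i j 15 = sgU f (21 * (j : ℤ) + 10, 39 * (i : ℤ) + 40) := by
  unfold v3_v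
  rw [if_neg (by decide), if_neg (by decide)]

theorem v3_jm (j : ℕ) (hj : 1 ≤ j) (z : ℤ) : ((21 * ((j - 1 : ℕ) : ℤ) + 20, z) : Pt) = (21 * (j : ℤ) + -1, z) := by
  ext
  · simp only
    push_cast [hj]
    ring
  · rfl

theorem v3_im (i : ℕ) (hi : 1 ≤ i) (z : ℤ) : ((z, 39 * ((i - 1 : ℕ) : ℤ) + 40) : Pt) = (z, 39 * (i : ℤ) + 1) := by
  ext
  · rfl
  · simp only
    push_cast [hi]
    ring

section v3

variable {φ : List Cl} {f : Pt → Bool → Pt}

theorem v3_one (v2 : TaskV2) (hS : Sel (bX φ) (bY φ) (Wset φ) f) {i j t : ℕ} (hi : i < nR φ)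
    (hj : j < nC φ) (ht : ty φ i j = t) {c : Claim} (hc : claimIn t c = true) {p : Pt × Bool}
    (ha : c.asm = [p]) (h1 : sgU f (21 * (j : ℤ) + p.1.1, 39 * (i : ℤ) + p.1.2) = p.2) : False := by
  refine v2 φ f hS i hi j hj c (ht ▸ hc) ?_
  rw [ha]
  intro a hm
  rw [List.mem_singleton] at hm
  rw [hm]
  exact h1

theorem v3_two (v2 : TaskV2) (hS : Sel (bX φ) (bY φ) (Wset φ) f) {i j t : ℕ} (hi : i < nR φ)
    (hj : j < nC φ) (ht : ty φ i j = t) {c : Claim} (hc : claimIn t c = true) {p q : Pt × Bool}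
    (ha : c.asm = [p, q]) (h1 : sgU f (21 * (j : ℤ) + p.1.1, 39 * (i : ℤ) + p.1.2) = p.2)
    (h2 : sgU f (21 * (j : ℤ) + q.1.1, 39 * (i : ℤ) + q.1.2) = q.2) : False := by
  refine v2 φ f hS i hi j hj c (ht ▸ hc) ?_
  rw [ha]
  intro a hm
  rw [List.mem_cons, List.mem_singleton] at hm
  rcases hm with rfl | rfl
  · exact h1
  · exact h2

theorem v3_three (v2 : TaskV2) (hS : Sel (bX φ) (bY φ) (Wset φ) f) {i j t : ℕ} (hi : i < nR φ)
    (hj : j < nC φ) (ht : ty φ i j = t) {c : Claim} (hc : claimIn t c = true) {p q r : Pt × Bool}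
    (ha : c.asm = [p, q, r]) (h1 : sgU f (21 * (j : ℤ) + p.1.1, 39 * (i : ℤ) + p.1.2) = p.2)
    (h2 : sgU f (21 * (j : ℤ) + q.1.1, 39 * (i : ℤ) + q.1.2) = q.2)
    (h3 : sgU f (21 * (j : ℤ) + r.1.1, 39 * (i : ℤ) + r.1.2) = r.2) : False := by
  refine v2 φ f hS i hi j hj c (ht ▸ hc) ?_
  rw [ha]
  intro a hm
  rw [List.mem_cons, List.mem_cons, List.mem_singleton] at hm
  rcases hm with rfl | rfl | rfl
  · exact h1
  · exact h2
  · exact h3

end v3

theorem v3_bf {b : Bool} (h : b = true → False) : b = false := by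
  cases b
  · rfl
  · exact (h rfl).elim

theorem v3_bt {b : Bool} (h : b = false → False) : b = true := by
  cases b
  · exact (h rfl).elim
  · rfl

theorem v3 (v2 : TaskV2) : TaskV3 := by
  intro hC φ f hφ hS
  obtain ⟨c0, c1, c2, c3, c4, c5, c6, c7⟩ := hC
  have hR := v1_nR φ
  have hlen : 0 < φ.length := List.length_pos_iff.2 hφ
  have hC0 : 0 < nC φ := Nat.succ_pos _
  refine ⟨v3_h f, v3_v f, ?_, ?_, ?_, ?_, ?_, ?_, ?_⟩
  · -- bl
    refine ⟨rfl, ?_⟩
    have ht : ty φ 0 0 = 5 := by simp [ty]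
    rw [v3_h0]
    refine v3_bf fun h1 => ?_
    exact v3_one v2 hS (by omega) hC0 ht (c5 cl5_g (by simp [claims5])) (p := ((20, 20), true)) rfl h1
  · -- bf
    intro j hj1 hj h0
    have ht : ty φ 0 j = 4 := by
      unfold ty
      rw [if_neg (by omega), if_pos rfl]
    rw [v3_h0, v3_jm j hj1] at h0
    refine ⟨?_, ?_⟩
    · rw [v3_h0]
      refine v3_bf fun h1 => ?_
      exact v3_two v2 hS (by omega) hj ht (c4 cl4_r (by simp [claims4])) (p := ((-1, 20), false))
        (q := ((20, 20), true)) rfl h0 h1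
    · rw [v3_v15]
      refine v3_bf fun h1 => ?_
      exact v3_two v2 hS (by omega) hj ht (c4 cl4_v (by simp [claims4])) (p := ((-1, 20), false))
        (q := ((10, 40), true)) rfl h0 h1
  · -- tA
    intro i hi h2 _
    refine ⟨rfl, v3_h41 f i 0 (by omega), fun h0 => ?_⟩
    have ht : ty φ i 0 = 2 := by
      unfold ty
      rw [if_pos rfl, if_neg (by omega), if_neg (by omega), if_pos h2]
    rw [v3_hy _ _ _ _ (by decide)] at h0
    rw [v3_v25]
    refine v3_bt fun h1 => ?_
    exact v3_two v2 hS (by omega) hC0 ht (c2 cl2_c (by simp [claims2])) (p := ((20, 20), true))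
      (q := ((9, 40), false)) rfl h0 h1
  · -- tB
    intro i hi1 hi h2 _
    refine ⟨rfl, v3_h41 f i 0 (by omega), fun h0 => ?_⟩
    obtain ⟨h0, h1⟩ := h0
    have ht : ty φ i 0 = 3 := by
      unfold ty
      rw [if_pos rfl, if_neg (by omega), if_neg (by omega), if_neg (by omega)]
    rw [v3_hy _ _ _ _ (by decide)] at h0
    rw [v3_v25, v3_im i hi1] at h1
    exact v3_two v2 hS (by omega) hC0 ht (c3 cl3_n (by simp [claims3])) (p := ((20, 20), true))
      (q := ((9, 1), true)) rfl h0 h1
  · -- tC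
    intro i j hi1 hi hj1 hj _
    refine ⟨v3_h41 f i j (by omega), ?_⟩
    have hi' : i < nR φ := by omega
    have ht : ty φ i j = if inCl (litRow i) (clOf φ j) then 1 else 0 := by
      unfold ty
      rw [if_neg (by omega), if_neg (by omega), if_neg (by omega)]
    rw [v3_hy _ _ _ _ (by decide), v3_hy _ _ _ _ (by decide), v3_jm j hj1, v3_v15, v3_v15,
      v3_im i hi1]
    by_cases hcl : inCl (litRow i) (clOf φ j) = true
    · rw [if_pos hcl] at ht
      have al := v3_two v2 hS hi' hj ht (c1 cl1_al (by simp [claims1])) (p := ((5, 14), true))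
        (q := ((-1, 20), false)) rfl
      have rb := v3_two v2 hS hi' hj ht (c1 cl1_rb (by simp [claims1])) (p := ((20, 20), true))
        (q := ((15, 14), false)) rfl
      have P1 := v3_three v2 hS hi' hj ht (c1 cl1_P1 (by simp [claims1])) (p := ((5, 14), false))
        (q := ((15, 14), true)) (r := ((10, 14), true)) rfl
      have Q1 := v3_three v2 hS hi' hj ht (c1 cl1_Q1 (by simp [claims1])) (p := ((5, 14), false))
        (q := ((15, 14), true)) (r := ((10, 14), false)) rfl
      have O := v3_three v2 hS hi' hj ht (c1 cl1_O (by simp [claims1])) (p := ((10, 40), true))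
        (q := ((5, 14), false)) (r := ((10, 23), false)) rfl
      have P2 := v3_two v2 hS hi' hj ht (c1 cl1_P2 (by simp [claims1])) (p := ((10, 23), true))
        (q := ((10, 14), false)) rfl
      have Q2 := v3_two v2 hS hi' hj ht (c1 cl1_Q2 (by simp [claims1])) (p := ((10, 14), true))
        (q := ((10, 1), false)) rfl
      simp only at al rb P1 Q1 O P2 Q2
      refine ⟨fun h1 => ?_, fun h1 => ?_⟩
      · refine v3_bt fun h2 => ?_
        have h3 := v3_bt (rb h1)
        have h4 := v3_bf fun h5 => al h5 h2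
        exact Q1 h4 h3 (v3_bf (P1 h4 h3))
      · by_cases h2 : sgU f (21 * (j : ℤ) + 5, 39 * (i : ℤ) + 14) = true
        · exact Or.inr ⟨hcl, v3_bt (al h2)⟩
        · refine Or.inl (v3_bt (Q2 (v3_bt (P2 (v3_bt (O h1 ?_))))))
          exact Bool.eq_false_iff.2 h2
    · rw [if_neg hcl] at ht
      have al := v3_two v2 hS hi' hj ht (c0 cl0_al (by simp [claims0])) (p := ((5, 14), true))
        (q := ((-1, 20), false)) rfl
      have rb := v3_two v2 hS hi' hj ht (c0 cl0_rb (by simp [claims0])) (p := ((20, 20), true))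
        (q := ((15, 14), false)) rfl
      have P1 := v3_three v2 hS hi' hj ht (c0 cl0_P1 (by simp [claims0])) (p := ((5, 14), false))
        (q := ((15, 14), true)) (r := ((10, 14), true)) rfl
      have Q1 := v3_three v2 hS hi' hj ht (c0 cl0_Q1 (by simp [claims0])) (p := ((5, 14), false))
        (q := ((15, 14), true)) (r := ((10, 14), false)) rfl
      have P2 := v3_two v2 hS hi' hj ht (c0 cl0_P2 (by simp [claims0])) (p := ((10, 40), true))
        (q := ((10, 14), false)) rfl
      have Q2 := v3_two v2 hS hi' hj ht (c0 cl0_Q2 (by simp [claims0])) (p := ((10, 14), true))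
        (q := ((10, 1), false)) rfl
      simp only at al rb P1 Q1 P2 Q2
      refine ⟨fun h1 => ?_, fun h1 => ?_⟩
      · refine v3_bt fun h2 => ?_
        have h3 := v3_bt (rb h1)
        have h4 := v3_bf fun h5 => al h5 h2
        exact Q1 h4 h3 (v3_bf (P1 h4 h3))
      · exact Or.inl (v3_bt (Q2 (v3_bt (P2 h1))))
  · -- tl
    have ht : ty φ (nR φ - 1) 0 = 7 := by
      unfold ty
      rw [if_pos rfl, if_neg (by omega), if_pos rfl]
    rw [v3_hy _ _ _ _ (by decide)]
    refine v3_bt fun h1 => ?_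
    exact v3_one v2 hS (by omega) hC0 ht (c7 cl7_g (by simp [claims7])) (p := ((20, 20), false)) rfl h1
  · -- tf
    intro j hj1 hj h0
    have ht : ty φ (nR φ - 1) j = 6 := by
      unfold ty
      rw [if_neg (by omega), if_neg (by omega), if_pos rfl]
    rw [v3_hy _ _ _ _ (by decide), v3_jm j hj1] at h0
    refine ⟨?_, ?_⟩
    · rw [v3_hy _ _ _ _ (by decide)]
      refine v3_bt fun h1 => ?_
      exact v3_two v2 hS (by omega) hj ht (c6 cl6_r (by simp [claims6])) (p := ((-1, 20), true))
        (q := ((20, 20), false)) rfl h0 h1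
    · have h3 : nR φ - 2 = nR φ - 1 - 1 := by omega
      rw [v3_v15, h3, v3_im (nR φ - 1) (by omega)]
      refine v3_bt fun h1 => ?_
      exact v3_two v2 hS (by omega) hj ht (c6 cl6_v (by simp [claims6])) (p := ((-1, 20), true))
        (q := ((10, 1), false)) rfl h0 h1

end Pool.Agent.H691.MM
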