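import Pool.Agent.H979.GW.StmC
import Pool.Agent.H979.QIP.BM

/-!
# Existence of Brownian motion (task BMX of helper979, by helper996)
-/

set_option autoImplicit false

open MeasureTheory ProbabilityTheory Filter Topology Set
open scoped ENNReal NNReal

namespace Pool.Agent.H996

open Pool.Agent.H979.GW

theorem gw_bmx : S_BMX := by
  obtain ⟨Ω', mΩ, P', hP, W, h1, h2, h3⟩ :=
    Pool.Agent.H979.QIP.exists_BM (d := 1) (S := 1) Matrix.PosSemidef.one
  refine ⟨Ω', mΩ, P', hP, fun t ω' => W (t : ℝ) ω' 0, ?_, ?_, ?_⟩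
  · intro t
    exact (measurable_pi_apply 0).comp (h1 _)
  · intro ω'
    exact (continuous_apply 0).comp ((h2 ω').comp NNReal.continuous_coe)
  · intro k t u
    have h := h3 k (fun j => (t j : ℝ)) (fun j _ => u j) (fun j => (t j).2)
    simp only [Fin.sum_univ_one, Matrix.one_apply_eq, mul_one] at h
    simp only [NNReal.coe_min]
    exact h

end Pool.Agent.H996
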