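import Pool.Agent.H133.ZM.Stm

set_option autoImplicit false

/-!
# The exchange argument (statement `S_key` of the project ZM)
-/

namespace Pool.Agent.H996.ZM

open Finset Pool.Agent.H133.ZM

/-- two edges share a vertex -/
def meets {V : Type} (e f : Sym2 V) : Prop := ∃ x, x ∈ e ∧ x ∈ f

/-- the weight -/
def om {V : Type} (v : Sym2 V → ℤ) (e : Sym2 V) : ℤ := if 1 ≤ v e then v e - 1 else - v e

section

variable {V : Type} {G : SimpleGraph V}

theorem isM_sub {B Q : Finset (Sym2 V)} (hB : IsM G B) (h : Q ⊆ B) : IsM G Q :=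
  ⟨fun e he => hB.1 e (h he), fun e he f hf => hB.2 e (h he) f (h hf)⟩

open Classical in
theorem card_at (M : Finset (Sym2 V)) (hM : IsM G M) (x : V) :
    (M.filter (fun e => x ∈ e)).card ≤ 1 := by
  rw [Finset.card_le_one]
  intro a ha b hb
  rw [Finset.mem_filter] at ha hb
  by_contra h
  exact hM.2 a ha.1 b hb.1 h x ha.2 hb.2

open Classical in
theorem card_meets (M : Finset (Sym2 V)) (hM : IsM G M) (b : Sym2 V) :
    (M.filter (fun f => meets f b)).card ≤ 2 := by
  obtain ⟨x, y⟩ := b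
  have h : M.filter (fun f => meets f s(x, y)) ⊆
      M.filter (fun f => x ∈ f) ∪ M.filter (fun f => y ∈ f) := by
    intro f hf
    rw [mem_filter] at hf
    obtain ⟨hfM, z, hz, hz'⟩ := hf
    rw [mem_union, mem_filter, mem_filter]
    rcases Sym2.mem_iff.1 hz' with rfl | rfl
    · exact Or.inl ⟨hfM, hz⟩
    · exact Or.inr ⟨hfM, hz⟩
  refine (card_le_card h).trans ((card_union_le _ _).trans ?_)
  have h1 := card_at M hM x
  have h2 := card_at M hM y
  omega

open Classical in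
/-- double counting of the incidences between `M \ B` and `B \ M` -/
theorem count (B M : Finset (Sym2 V)) (hM : IsM G M) :
    M.card ≤ ((M \ B).filter
      (fun f => ((B \ M).filter (fun b => meets f b)).card ≤ 1)).card + B.card := by
  have h1 : ∑ f ∈ M \ B, ((B \ M).filter (fun b => meets f b)).card =
      ∑ b ∈ B \ M, ((M \ B).filter (fun f => meets f b)).card := by
    simp only [card_filter]
    exact sum_comm
  have h2 : ∑ b ∈ B \ M, ((M \ B).filter (fun f => meets f b)).card ≤ ∑ b ∈ B \ M, 2 :=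
    sum_le_sum fun b _ => (card_le_card (filter_subset_filter _ sdiff_subset)).trans
      (card_meets M hM b)
  have h3 : ∑ f ∈ (M \ B).filter
        (fun f => ¬ ((B \ M).filter (fun b => meets f b)).card ≤ 1), 2 ≤
      ∑ f ∈ M \ B, ((B \ M).filter (fun b => meets f b)).card := by
    refine (sum_le_sum (fun f hf => ?_)).trans (sum_le_sum_of_subset (filter_subset _ _))
    have h := (mem_filter.1 hf).2
    omega
  have h4 := card_filter_add_card_filter_not (s := M \ B)
    (fun f => ((B \ M).filter (fun b => meets f b)).card ≤ 1)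
  have h5 := card_sdiff_add_card_inter M B
  have h6 := card_sdiff_add_card_inter B M
  rw [inter_comm] at h6
  rw [sum_const, smul_eq_mul] at h2 h3
  omega

open Classical in
/-- exchange of edges -/
theorem exch (B M X Y : Finset (Sym2 V)) (hB : IsM G B) (hM : IsM G M)
    (hY : ∀ f ∈ Y, f ∈ M ∧ f ∉ B)
    (hX : ∀ f ∈ Y, ∀ b ∈ B, b ∉ M → meets f b → b ∈ X) : IsM G ((B \ X) ∪ Y) := by
  have key : ∀ e ∈ B \ X, ∀ f ∈ Y, ∀ x ∈ e, x ∉ f := by
    intro e he f hf x hx hx'
    rw [mem_sdiff] at he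
    by_cases heM : e ∈ M
    · exact hM.2 e heM f (hY f hf).1 (fun h => (hY f hf).2 (h ▸ he.1)) x hx hx'
    · exact he.2 (hX f hf e he.1 heM ⟨x, hx', hx⟩)
  refine ⟨fun e he => ?_, fun e he f hf hef x hx => ?_⟩
  · rcases mem_union.1 he with h | h
    · exact hB.1 e (mem_sdiff.1 h).1
    · exact hM.1 e (hY e h).1
  · rcases mem_union.1 he with h | h
    · rcases mem_union.1 hf with h' | h'
      · exact hB.2 e (mem_sdiff.1 h).1 f (mem_sdiff.1 h').1 hef x hx
      · exact key e h f h' x hx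
    · rcases mem_union.1 hf with h' | h'
      · intro hxf
        exact key f h' e h x hxf hx
      · exact hM.2 e (hY e h).1 f (hY f h').1 hef x hx

theorem om_nonneg (v : Sym2 V → ℤ) (e : Sym2 V) : 0 ≤ om v e := by
  unfold om
  split_ifs <;> omega

theorem W (m : ℕ) (v : Sym2 V → ℤ) (M : Finset (Sym2 V))
    (h1 : ∑ e ∈ M.filter (fun e => 1 ≤ v e), v e ≤ (m : ℤ) - 1)
    (h2 : ∑ e ∈ M.filter (fun e => v e ≤ 0), (1 - v e) ≤ (m : ℤ) - 1) :
    (M.card : ℤ) + ∑ e ∈ M, om v e ≤ 2 * m - 2 := by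
  have h3 : (M.card : ℤ) + ∑ e ∈ M, om v e =
      ∑ e ∈ M.filter (fun e => 1 ≤ v e), v e +
        ∑ e ∈ M.filter (fun e => v e ≤ 0), (1 - v e) := by
    have e1 : (M.card : ℤ) = ∑ e ∈ M, (1 : ℤ) := by simp
    rw [e1, ← sum_add_distrib, ← sum_filter_add_sum_filter_not M (fun e => 1 ≤ v e)]
    have e2 : M.filter (fun e => ¬ 1 ≤ v e) = M.filter (fun e => v e ≤ 0) :=
      filter_congr fun e _ => by omega
    rw [e2]
    congr 1
    · refine sum_congr rfl fun e he => ?_
      rw [om, if_pos (mem_filter.1 he).2]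
      ring
    · refine sum_congr rfl fun e he => ?_
      have h := (mem_filter.1 he).2
      rw [om, if_neg (by omega)]
      ring
  linarith

theorem card_le_om (v : Sym2 V → ℤ) (S : Finset (Sym2 V)) (h : ∀ e ∈ S, 1 ≤ om v e) :
    (S.card : ℤ) ≤ ∑ e ∈ S, om v e := by
  have h1 : (S.card : ℤ) = ∑ e ∈ S, (1 : ℤ) := by simp
  rw [h1]
  exact sum_le_sum h

theorem sum_Hv (v : Sym2 V → ℤ) (B : Finset (Sym2 V)) (hv : ∀ e ∈ B, 1 ≤ v e) :
    ∑ e ∈ B.filter (fun e => 2 ≤ v e), om v e = ∑ e ∈ B, (v e - 1) := by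
  rw [← sum_filter_add_sum_filter_not B (fun e => 2 ≤ v e) (fun e => v e - 1)]
  have h : ∑ e ∈ B.filter (fun e => ¬ 2 ≤ v e), (v e - 1) = 0 := sum_eq_zero fun e he => by
    rw [mem_filter] at he
    have := hv e he.1
    omega
  rw [h, add_zero]
  refine sum_congr rfl fun e he => ?_
  rw [om, if_pos (hv e (mem_filter.1 he).1)]

theorem om_Hv (v : Sym2 V → ℤ) (B : Finset (Sym2 V)) :
    ∀ e ∈ B.filter (fun e => 2 ≤ v e), 1 ≤ om v e := by
  intro e he
  have h := (mem_filter.1 he).2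
  rw [om, if_pos (by omega)]
  omega

end

theorem core (m L : ℕ) (hm : 3 ≤ m) (hL : 3 * m ≤ 2 * L + 1) {V : Type} [Fintype V]
    (G : SimpleGraph V) (v : Sym2 V → ℤ)
    (h1 : ∀ M, IsM G M → M.card = m → ¬ (m : ℤ) ∣ ∑ e ∈ M, v e)
    (h2 : ∀ Q, IsM G Q → 2 * Q.card + 1 ≤ m → ∃ M, IsM G M ∧ Q ⊆ M ∧ M.card = L)
    (h3 : ∀ M, IsM G M → L ≤ M.card →
      ∑ e ∈ M.filter (fun e => 1 ≤ v e), v e ≤ (m : ℤ) - 1 ∧
      ∑ e ∈ M.filter (fun e => v e ≤ 0), (1 - v e) ≤ (m : ℤ) - 1) :
    ∀ M, IsM G M → M.card = m → ¬ ∀ e ∈ M, 1 ≤ v e := by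
  classical
  intro B0 hB0 hB0m hB0v
  -- minimal excess
  let P : ℕ → Prop := fun k => ∃ B, IsM G B ∧ B.card = m ∧ (∀ e ∈ B, 1 ≤ v e) ∧
    ∑ e ∈ B, (v e - 1) = (k : ℤ)
  have hP : ∃ k, P k := ⟨(∑ e ∈ B0, (v e - 1)).toNat, B0, hB0, hB0m, hB0v,
    (Int.toNat_of_nonneg (sum_nonneg fun e he => by have := hB0v e he; omega)).symm⟩
  obtain ⟨k0, ⟨B1, hB1, hB1m, hB1v, hB1k⟩, hmin⟩ : ∃ k0, P k0 ∧ ∀ k, P k → k0 ≤ k :=
    ⟨Nat.find hP, Nat.find_spec hP, fun k hk => Nat.find_min' hP hk⟩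
  -- sums
  have hsum : ∀ B : Finset (Sym2 V), B.card = m → ∑ e ∈ B, (v e - 1) = (k0 : ℤ) →
      ∑ e ∈ B, v e = m + k0 := by
    intro B hc hk
    rw [sum_sub_distrib] at hk
    simp only [sum_const, nsmul_eq_mul, mul_one] at hk
    rw [hc] at hk
    linarith
  have hk0 : 1 ≤ k0 := by
    by_contra h
    have h0 : k0 = 0 := by omega
    refine h1 B1 hB1 hB1m ?_
    rw [hsum B1 hB1m hB1k, h0]
    simp
  have hHc1 : ((B1.filter (fun e => 2 ≤ v e)).card : ℤ) ≤ k0 := by
    rw [← hB1k, ← sum_Hv v B1 hB1v]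
    exact card_le_om v _ (om_Hv v B1)
  -- the heavy edges are few
  have hA : 2 * (B1.filter (fun e => 2 ≤ v e)).card + 1 ≤ m := by
    by_contra h
    obtain ⟨Q, hQs, hQc⟩ := exists_subset_card_eq
      (s := B1.filter (fun e => 2 ≤ v e)) (n := (m - 1) / 2) (by omega)
    obtain ⟨M, hM, hQM, hMc⟩ := h2 Q (isM_sub hB1 (hQs.trans (filter_subset _ _))) (by omega)
    obtain ⟨w1, w2⟩ := h3 M hM hMc.ge
    have w := W m v M w1 w2
    have w3 : (Q.card : ℤ) ≤ ∑ e ∈ M, om v e :=
      (card_le_om v Q fun e he => om_Hv v B1 e (hQs he)).trans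
        (sum_le_sum_of_subset_of_nonneg hQM fun e _ _ => om_nonneg v e)
    omega
  obtain ⟨M, hM, hHM, hMc⟩ := h2 _ (isM_sub hB1 (filter_subset _ _)) hA
  obtain ⟨w1, w2⟩ := h3 M hM hMc.ge
  have w := W m v M w1 w2
  -- choose `B` with maximal intersection with `M`
  let Fam : Finset (Finset (Sym2 V)) := univ.filter (fun B => IsM G B ∧ B.card = m ∧
    (∀ e ∈ B, 1 ≤ v e) ∧ ∑ e ∈ B, (v e - 1) = (k0 : ℤ) ∧ B.filter (fun e => 2 ≤ v e) ⊆ M)
  have hFam : ∀ B, B ∈ Fam ↔ IsM G B ∧ B.card = m ∧ (∀ e ∈ B, 1 ≤ v e) ∧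
      ∑ e ∈ B, (v e - 1) = (k0 : ℤ) ∧ B.filter (fun e => 2 ≤ v e) ⊆ M := fun B => by
    simp only [Fam, mem_filter, mem_univ, true_and]
  obtain ⟨B, hBF, hmax⟩ := exists_max_image Fam (fun B => (M ∩ B).card)
    ⟨B1, (hFam B1).2 ⟨hB1, hB1m, hB1v, hB1k, hHM⟩⟩
  obtain ⟨hB, hBm, hBv, hBk, hBH⟩ := (hFam B).1 hBF
  clear hHc1 hA hHM
  have hHc : ((B.filter (fun e => 2 ≤ v e)).card : ℤ) ≤ k0 := by
    rw [← hBk, ← sum_Hv v B hBv]
    exact card_le_om v _ (om_Hv v B)
  have hHs := sum_Hv v B hBv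
  rw [hBk] at hHs
  -- elements of `B` outside `M` have the value `1`
  have hout : ∀ b ∈ B, b ∉ M → v b = 1 := by
    intro b hb hbM
    have g1 := hBv b hb
    by_contra g2
    exact hbM (hBH (mem_filter.2 ⟨hb, by omega⟩))
  -- one exchange
  have one : ∀ f ∈ M, f ∉ B → v f = 1 → ∀ b0 ∈ B,
      (∀ b ∈ B, b ∉ M → meets f b → b = b0) →
      IsM G ((B \ {b0}) ∪ {f}) ∧ ((B \ {b0}) ∪ {f}).card = m ∧
      (∀ e ∈ (B \ {b0}) ∪ {f}, 1 ≤ v e) ∧
      ∑ e ∈ (B \ {b0}) ∪ {f}, (v e - 1) = (k0 : ℤ) - (v b0 - 1) := by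
    intro f hfM hfB hf1 b0 hb0 hb
    have hd : Disjoint (B \ {b0}) {f} := by
      rw [disjoint_singleton_right, mem_sdiff]
      exact fun h => hfB h.1
    refine ⟨exch B M {b0} {f} hB hM (fun g hg => ?_) (fun g hg b hbB hbM hm' => ?_), ?_, ?_, ?_⟩
    · rw [mem_singleton.1 hg]
      exact ⟨hfM, hfB⟩
    · rw [mem_singleton.1 hg] at hm'
      exact mem_singleton.2 (hb b hbB hbM hm')
    · rw [card_union_of_disjoint hd, card_sdiff_of_subset (singleton_subset_iff.2 hb0),
        card_singleton, card_singleton, hBm]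
      omega
    · intro e he
      rcases mem_union.1 he with h | h
      · exact hBv e (mem_sdiff.1 h).1
      · rw [mem_singleton.1 h, hf1]
    · rw [sum_union hd, sum_singleton, hf1, ← hBk,
        ← sum_sdiff (singleton_subset_iff.2 hb0), sum_singleton]
      ring
  -- the edges of `M \ B` which meet at most one edge of `B \ M` do not have the value `1`
  set A := (M \ B).filter (fun f => ((B \ M).filter (fun b => meets f b)).card ≤ 1) with hAdef
  have hA1 : ∀ f ∈ A, v f ≠ 1 := by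
    intro f hf hf1
    rw [hAdef, mem_filter, mem_sdiff] at hf
    obtain ⟨⟨hfM, hfB⟩, hfc⟩ := hf
    rcases (B \ M).filter (fun b => meets f b) |>.eq_empty_or_nonempty with hE | ⟨b, hbE⟩
    · -- no edge
      have hne : (B.filter (fun e => 2 ≤ v e)).Nonempty := by
        rw [nonempty_iff_ne_empty]
        intro h0
        rw [h0, sum_empty] at hHs
        omega
      obtain ⟨b0, hb0⟩ := hne
      rw [mem_filter] at hb0
      obtain ⟨g1, g2, g3, g4⟩ := one f hfM hfB hf1 b0 hb0.1 (fun b hb hbM hmb => by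
        have h : b ∈ (B \ M).filter (fun b => meets f b) :=
          mem_filter.2 ⟨mem_sdiff.2 ⟨hb, hbM⟩, hmb⟩
        rw [hE] at h
        exact absurd h (notMem_empty b))
      have g5 := hmin ((k0 : ℤ) - (v b0 - 1)).toNat ⟨_, g1, g2, g3, by
        rw [g4, Int.toNat_of_nonneg]
        rw [← g4]
        exact sum_nonneg fun e he => by have := g3 e he; omega⟩
      have := hb0.2
      omega
    · -- exactly one edge
      have hb' := mem_filter.1 hbE
      have hb'' := mem_sdiff.1 hb'.1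
      obtain ⟨g1, g2, g3, g4⟩ := one f hfM hfB hf1 b hb''.1 (fun b' hb1 hbM hmb =>
        card_le_one.1 hfc b' (mem_filter.2 ⟨mem_sdiff.2 ⟨hb1, hbM⟩, hmb⟩) b hbE)
      have hb1 := hout b hb''.1 hb''.2
      rw [hb1, sub_self, sub_zero] at g4
      have g5 := hmax _ ((hFam _).2 ⟨g1, g2, g3, g4, fun e he => by
        rw [mem_filter, mem_union, mem_sdiff] at he
        rcases he.1 with h | h
        · exact hBH (mem_filter.2 ⟨h.1, he.2⟩)
        · rw [mem_singleton.1 h]
          exact hfM⟩)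
      have g6 : insert f (M ∩ B) ⊆ M ∩ ((B \ {b}) ∪ {f}) := by
        intro e he
        rw [mem_insert, mem_inter] at he
        rw [mem_inter, mem_union, mem_sdiff, mem_singleton, mem_singleton]
        rcases he with h | h
        · rw [h]
          exact ⟨hfM, Or.inr rfl⟩
        · refine ⟨h.1, Or.inl ⟨h.2, ?_⟩⟩
          rintro rfl
          exact hb''.2 h.1
      have g7 := card_le_card g6
      rw [card_insert_of_notMem (fun h => hfB (mem_inter.1 h).2)] at g7
      have g8 : (M ∩ ((B \ {b}) ∪ {f})).card ≤ (M ∩ B).card := g5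
      omega
  -- counting
  have hcount := count B M hM
  rw [← hAdef, hBm, hMc] at hcount
  have hsplit := card_filter_add_card_filter_not (s := A) (fun f => v f = 0)
  have hA2 : (L : ℤ) + k0 + (A.filter (fun f => ¬ v f = 0)).card ≤ 2 * m - 2 := by
    have g1 : ((A.filter (fun f => ¬ v f = 0)).card : ℤ) ≤
        ∑ e ∈ A.filter (fun f => ¬ v f = 0), om v e := by
      refine card_le_om v _ fun e he => ?_
      rw [mem_filter] at he
      have h := hA1 e he.1
      have h' := he.2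
      unfold om
      split_ifs <;> omega
    have g2 : Disjoint (B.filter (fun e => 2 ≤ v e)) (A.filter (fun f => ¬ v f = 0)) := by
      rw [disjoint_left]
      intro e he he'
      rw [mem_filter] at he he'
      have h := he'.1
      rw [hAdef, mem_filter, mem_sdiff] at h
      exact h.1.2 he.1
    have g3 : B.filter (fun e => 2 ≤ v e) ∪ A.filter (fun f => ¬ v f = 0) ⊆ M := by
      refine union_subset hBH fun e he => ?_
      have h := (mem_filter.1 he).1
      rw [hAdef, mem_filter, mem_sdiff] at h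
      exact h.1.1
    have g4 := sum_le_sum_of_subset_of_nonneg g3 (f := om v) fun e _ _ => om_nonneg v e
    rw [sum_union g2, hHs] at g4
    rw [hMc] at w
    linarith
  have hY : k0 ≤ (A.filter (fun f => v f = 0)).card := by omega
  obtain ⟨Y, hYs, hYc⟩ := exists_subset_card_eq hY
  have hYA : ∀ f ∈ Y, (f ∈ M ∧ f ∉ B) ∧ ((B \ M).filter (fun b => meets f b)).card ≤ 1 ∧
      v f = 0 := by
    intro f hf
    have h := mem_filter.1 (hYs hf)
    have h' := h.1
    rw [hAdef, mem_filter, mem_sdiff] at h'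
    exact ⟨h'.1, h'.2, h.2⟩
  -- the edges to be removed
  have hN1 : (Y.biUnion fun f => (B \ M).filter (fun b => meets f b)).card ≤ k0 := by
    have h := card_biUnion_le_card_mul Y (fun f => (B \ M).filter (fun b => meets f b)) 1
      (fun f hf => (hYA f hf).2.1)
    rw [hYc, mul_one] at h
    exact h
  have hN2 : (Y.biUnion fun f => (B \ M).filter (fun b => meets f b)) ⊆
      B.filter (fun e => v e = 1) := by
    intro b hb
    rw [mem_biUnion] at hb
    obtain ⟨f, -, hb⟩ := hb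
    rw [mem_filter, mem_sdiff] at hb
    exact mem_filter.2 ⟨hb.1.1, hout b hb.1.1 hb.1.2⟩
  have hN3 : k0 ≤ (B.filter (fun e => v e = 1)).card := by
    have h := card_filter_add_card_filter_not (s := B) (fun e => v e = 1)
    have h' : (B.filter (fun e => ¬ v e = 1)).card ≤ (B.filter (fun e => 2 ≤ v e)).card := by
      refine card_le_card fun e he => ?_
      rw [mem_filter] at he
      have := hBv e he.1
      have h2' := he.2
      exact mem_filter.2 ⟨he.1, by omega⟩
    rw [hBm] at h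
    omega
  obtain ⟨X, hX1, hX2, hX3⟩ := exists_subsuperset_card_eq hN2 hN1 hN3
  have hXB : X ⊆ B := hX2.trans (filter_subset _ _)
  have hd : Disjoint (B \ X) Y := by
    rw [disjoint_left]
    intro e he he'
    exact (hYA e he').1.2 (mem_sdiff.1 he).1
  refine h1 ((B \ X) ∪ Y) (exch B M X Y hB hM (fun f hf => (hYA f hf).1)
    (fun f hf b hb hbM hmb => hX1 (mem_biUnion.2 ⟨f, hf,
      mem_filter.2 ⟨mem_sdiff.2 ⟨hb, hbM⟩, hmb⟩⟩))) ?_ ?_
  · rw [card_union_of_disjoint hd, card_sdiff_of_subset hXB, hYc, hX3, hBm]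
    have h := card_le_card hXB
    rw [hX3, hBm] at h
    omega
  · have e1 : ∑ e ∈ Y, v e = 0 := sum_eq_zero fun e he => (hYA e he).2.2
    have e2 : ∑ e ∈ X, v e = k0 := by
      rw [sum_congr rfl fun e he => (mem_filter.1 (hX2 he)).2]
      simp [hX3]
    have e3 := sum_sdiff (f := v) hXB
    rw [e2, hsum B hBm hBk] at e3
    have e4 : ∑ e ∈ (B \ X) ∪ Y, v e = m := by
      rw [sum_union hd, e1, add_zero]
      linarith
    rw [e4]

theorem t_key : S_key := by
  intro m L hm hL V _ _ G v h1 h2 h3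
  exact core m L hm hL G v h1 h2 h3

end Pool.Agent.H996.ZM
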